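import Pool.Agent.N594.NT.Stm2

/-!
# Project NT, leaf NEG: Turán's construction is not optimal for larger `m`
-/

set_option autoImplicit false

open Finset
open scoped Classical

namespace Pool.Agent.N38.NT.NEG

open Pool.Agent.N594.CT Pool.Agent.N442.ES

/-- the sets with one element in each of the `s` subclasses of the class of the multiples of `k` -/
noncomputable def R (s k n : ℕ) : Finset (Finset (Fin n)) :=
  (univ.powersetCard s).filter fun e => (∀ x ∈ e, (x : ℕ) % k = 0) ∧
    ∀ x ∈ e, ∀ y ∈ e, ((x : ℕ) / k) % s = ((y : ℕ) / k) % s → x = y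

theorem R_card_mem {s k n : ℕ} {e : Finset (Fin n)} (h : e ∈ R s k n) : e.card = s :=
  (mem_powersetCard.mp (mem_filter.mp h).1).2

theorem disj (s k n : ℕ) : Disjoint (TC s (cm k : Fin n → ℕ)) (R s k n) := by
  rw [Finset.disjoint_left]
  intro e h1 h2
  obtain ⟨x, hx, y, hy, hxy⟩ := (mem_filter.mp h1).2
  obtain ⟨h3, -⟩ := (mem_filter.mp h2).2
  exact hxy ((h3 x hx).trans (h3 y hy).symm)

/-- the local property -/
theorem loc {s k n : ℕ} (hs : 2 ≤ s) (hk : 1 ≤ k) (m q : ℕ)
    (h : (k * (s - 1) + 1) * (q - 1) < (s - 1) * m) :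
    Local m q (TC s (cm k : Fin n → ℕ) ∪ R s k n) := by
  intro S hS
  rcases Nat.eq_zero_or_pos q with rfl | hq
  · refine ⟨∅, empty_subset _, card_empty, fun e he hsub => ?_⟩
    have he0 : e = ∅ := subset_empty.mp hsub
    have hc : e.card = s := by
      rcases mem_union.mp he with h1 | h1
      · exact TC_card_mem h1
      · exact R_card_mem h1
    rw [he0, card_empty] at hc
    omega
  · by_cases hA : ∃ r, 1 ≤ r ∧ r < k ∧ q ≤ (S.filter fun x : Fin n => (x : ℕ) % k = r).card
    · obtain ⟨r, hr1, hrk, hr⟩ := hA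
      obtain ⟨J, hJ, hJc⟩ := exists_subset_card_eq hr
      refine ⟨J, fun v hv => (mem_filter.mp (hJ hv)).1, hJc, fun e he hsub => ?_⟩
      rcases mem_union.mp he with h1 | h1
      · obtain ⟨x, hx, y, hy, hxy⟩ := (mem_filter.mp h1).2
        exact hxy (((mem_filter.mp (hJ (hsub hx))).2).trans (mem_filter.mp (hJ (hsub hy))).2.symm)
      · have hc := R_card_mem h1
        obtain ⟨x, hx⟩ : e.Nonempty := card_pos.mp (by omega)
        have h2 := (mem_filter.mp h1).2.1 x hx
        have h3 := (mem_filter.mp (hJ (hsub hx))).2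
        omega
    · push Not at hA
      set W : Finset (Fin n) := S.filter fun x : Fin n => (x : ℕ) % k = 0 with hW
      have hm : m ≤ W.card + (k - 1) * (q - 1) := by
        have h1 : S.card = ∑ r ∈ range k, (S.filter fun x : Fin n => (x : ℕ) % k = r).card :=
          card_eq_sum_card_fiberwise fun x _ => mem_coe.mpr (mem_range.mpr (Nat.mod_lt _ (by omega)))
        obtain ⟨k', rfl⟩ : ∃ k', k = k' + 1 := ⟨k - 1, by omega⟩
        rw [← hS, h1, sum_range_succ', Nat.add_sub_cancel, add_comm]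
        refine Nat.add_le_add_left ?_ _
        calc ∑ r ∈ range k', (S.filter fun x : Fin n => (x : ℕ) % (k' + 1) = r + 1).card
            ≤ ∑ _r ∈ range k', (q - 1) := by
              refine sum_le_sum fun r hr => ?_
              have := hA (r + 1) (by omega) (by have := mem_range.mp hr; omega)
              omega
          _ = k' * (q - 1) := by rw [sum_const, card_range, smul_eq_mul]
      have hw : s * (q - 1) < (s - 1) * W.card := by
        obtain ⟨s', rfl⟩ : ∃ s', s = s' + 1 := ⟨s - 1, by omega⟩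
        obtain ⟨k', rfl⟩ : ∃ k', k = k' + 1 := ⟨k - 1, by omega⟩
        rw [Nat.add_sub_cancel] at h hm ⊢
        have h2 : s' * m ≤ s' * (W.card + k' * (q - 1)) := Nat.mul_le_mul_left _ hm
        nlinarith [h, h2]
      have hsum : ∑ j ∈ range s, (W.filter fun x : Fin n => ((x : ℕ) / k) % s = j).card = W.card :=
        (card_eq_sum_card_fiberwise fun x _ =>
          mem_coe.mpr (mem_range.mpr (Nat.mod_lt _ (by omega)))).symm
      obtain ⟨j, hj, hjw⟩ : ∃ j ∈ range s,
          s * (W.filter fun x : Fin n => ((x : ℕ) / k) % s = j).card ≤ W.card := by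
        by_contra hcon
        push Not at hcon
        have h2 : ∑ _j ∈ range s, W.card <
            ∑ j ∈ range s, s * (W.filter fun x : Fin n => ((x : ℕ) / k) % s = j).card :=
          sum_lt_sum_of_nonempty ⟨0, mem_range.mpr (by omega)⟩ hcon
        rw [sum_const, card_range, smul_eq_mul, ← mul_sum, hsum] at h2
        exact lt_irrefl _ h2
      have hcomp := card_filter_add_card_filter_not (s := W)
        (fun x : Fin n => ((x : ℕ) / k) % s = j)
      have hqc : q ≤ (W.filter fun x : Fin n => ¬ ((x : ℕ) / k) % s = j).card := by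
        by_contra hcon
        push Not at hcon
        obtain ⟨s', rfl⟩ : ∃ s', s = s' + 1 := ⟨s - 1, by omega⟩
        rw [Nat.add_sub_cancel] at hw
        obtain ⟨A, hA'⟩ : ∃ A, A = (W.filter fun x : Fin n => ((x : ℕ) / k) % (s' + 1) = j).card :=
          ⟨_, rfl⟩
        obtain ⟨B, hB'⟩ : ∃ B, B = (W.filter fun x : Fin n => ¬ ((x : ℕ) / k) % (s' + 1) = j).card :=
          ⟨_, rfl⟩
        rw [← hA'] at hjw hcomp
        rw [← hB'] at hcon hcomp
        have h3 : B ≤ q - 1 := by omega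
        have h4 := Nat.mul_le_mul_left (s' + 1) h3
        rw [← hcomp] at hjw hw
        nlinarith [h4, hjw, hw]
      obtain ⟨J, hJ, hJc⟩ := exists_subset_card_eq hqc
      refine ⟨J, fun v hv => (mem_filter.mp (mem_filter.mp (hJ hv)).1).1, hJc,
        fun e he hsub => ?_⟩
      rcases mem_union.mp he with h1 | h1
      · obtain ⟨x, hx, y, hy, hxy⟩ := (mem_filter.mp h1).2
        exact hxy (((mem_filter.mp (mem_filter.mp (hJ (hsub hx))).1).2).trans
          (mem_filter.mp (mem_filter.mp (hJ (hsub hy))).1).2.symm)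
      · have hc := R_card_mem h1
        have hinj : Set.InjOn (fun x : Fin n => ((x : ℕ) / k) % s) e :=
          fun x hx y hy hxy => (mem_filter.mp h1).2.2 x hx y hy hxy
        have h5 : (e.image fun x : Fin n => ((x : ℕ) / k) % s) ⊆ (range s).erase j := by
          intro a ha
          obtain ⟨x, hx, rfl⟩ := mem_image.mp ha
          exact mem_erase.mpr ⟨(mem_filter.mp (hJ (hsub hx))).2,
            mem_range.mpr (Nat.mod_lt _ (by omega))⟩
        have h6 := card_le_card h5
        rw [card_image_of_injOn hinj, hc, card_erase_of_mem hj, card_range] at h6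
        omega

/-- the size of `R` -/
theorem R_size {s k n : ℕ} (hs : 1 ≤ s) (hk : 1 ≤ k) : (n / (k * s)) ^ s ≤ (R s k n).card := by
  have hlt : ∀ (t : Fin s → Fin (n / (k * s))) (j : Fin s), k * (s * (t j : ℕ) + j) < n := by
    intro t j
    have h1 : (t j : ℕ) + 1 ≤ n / (k * s) := (t j).2
    have h2 : (k * s) * ((t j : ℕ) + 1) ≤ n :=
      (Nat.mul_le_mul_left _ h1).trans (Nat.mul_div_le n (k * s))
    have h3 : (j : ℕ) < s := j.2
    have h4 : k * (s * (t j : ℕ) + j) < k * (s * (t j : ℕ) + s) :=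
      Nat.mul_lt_mul_of_pos_left (by omega) (by omega)
    calc k * (s * (t j : ℕ) + j) < k * (s * (t j : ℕ) + s) := h4
      _ = (k * s) * ((t j : ℕ) + 1) := by ring
      _ ≤ n := h2
  obtain ⟨x, hx⟩ : ∃ x : (Fin s → Fin (n / (k * s))) → Fin s → Fin n,
      ∀ t j, ((x t j : Fin n) : ℕ) = k * (s * (t j : ℕ) + j) :=
    ⟨fun t j => ⟨k * (s * (t j : ℕ) + j), hlt t j⟩, fun _ _ => rfl⟩
  have hdiv : ∀ t j, ((x t j : Fin n) : ℕ) / k = s * (t j : ℕ) + j := by
    intro t j
    rw [hx, Nat.mul_div_cancel_left _ (by omega)]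
  have hmod : ∀ t j, (((x t j : Fin n) : ℕ) / k) % s = j := by
    intro t j
    rw [hdiv, Nat.mul_add_mod, Nat.mod_eq_of_lt j.2]
  have hinj : ∀ t, Function.Injective (x t) := by
    intro t j j' hjj
    have h1 := hmod t j
    rw [hjj, hmod] at h1
    exact Fin.ext h1.symm
  have hcard : Fintype.card (Fin s → Fin (n / (k * s))) = (n / (k * s)) ^ s := by
    rw [Fintype.card_fun, Fintype.card_fin, Fintype.card_fin]
  rw [← hcard, ← Finset.card_univ]
  refine card_le_card_of_injOn (fun t => univ.image (x t)) ?_ ?_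
  · intro t _
    rw [mem_coe]
    refine mem_filter.mpr ⟨mem_powersetCard.mpr ⟨subset_univ _, ?_⟩, ?_, ?_⟩
    · rw [card_image_of_injective _ (hinj t), card_univ, Fintype.card_fin]
    · intro v hv
      obtain ⟨j, -, rfl⟩ := mem_image.mp hv
      rw [hx, Nat.mul_mod_right]
    · intro v hv w hw hvw
      obtain ⟨j, -, rfl⟩ := mem_image.mp hv
      obtain ⟨j', -, rfl⟩ := mem_image.mp hw
      rw [hmod, hmod] at hvw
      rw [Fin.ext hvw]
  · intro t _ t' _ htt
    have htt' : univ.image (x t) = univ.image (x t') := htt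
    funext j
    have h1 : x t j ∈ univ.image (x t') := htt' ▸ mem_image_of_mem _ (mem_univ j)
    obtain ⟨j', -, hj'⟩ := mem_image.mp h1
    have h2 : j' = j := by
      have h3 := hmod t' j'
      rw [hj', hmod] at h3
      exact Fin.ext h3.symm
    rw [h2] at hj'
    have h4 := hdiv t' j
    rw [hj', hdiv] at h4
    have h5 : s * (t j : ℕ) = s * (t' j : ℕ) := by omega
    exact Fin.ext (Nat.eq_of_mul_eq_mul_left (by omega) h5)

theorem main : Pool.Agent.N594.NT.S_NEG := by
  intro s k hs hk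
  obtain ⟨c', hc'⟩ : ∃ c' : ℝ, c' = (1 / (2 * ((k : ℝ) * s))) ^ s := ⟨_, rfl⟩
  have hk0 : (0 : ℝ) < k := by exact_mod_cast hk
  have hs0 : (0 : ℝ) < s := by exact_mod_cast (by omega : 0 < s)
  have hc0 : 0 < c' := by rw [hc']; positivity
  obtain ⟨d, rfl⟩ : ∃ d, s = d + 2 := ⟨s - 2, by omega⟩
  obtain ⟨N, hN⟩ := TC_lower d k hk (show (0 : ℝ) < c' / 2 by positivity)
  refine ⟨c' / 2, by positivity, max N (k * (d + 2)), fun n hn =>
    ⟨TC (d + 2) (cm k : Fin n → ℕ) ∪ R (d + 2) k n, ?_, fun m q h => loc hs hk m q h, ?_⟩⟩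
  · intro e he
    rcases mem_union.mp he with h1 | h1
    · exact TC_card_mem h1
    · exact R_card_mem h1
  · have h1 := hN n ((le_max_left _ _).trans hn)
    have hn2 : k * (d + 2) ≤ n := (le_max_right _ _).trans hn
    have h2 : ((n / (k * (d + 2)) : ℕ) : ℝ) ^ (d + 2) ≤ ((R (d + 2) k n).card : ℝ) := by
      exact_mod_cast R_size (s := d + 2) (k := k) (n := n) (by omega) hk
    have hks : 0 < k * (d + 2) := by positivity
    have h3 : (n : ℝ) / (2 * ((k : ℝ) * ((d + 2 : ℕ) : ℝ))) ≤ ((n / (k * (d + 2)) : ℕ) : ℝ) := by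
      have h4 : n < k * (d + 2) * (n / (k * (d + 2)) + 1) := Nat.lt_mul_div_succ n hks
      have h5 : 1 ≤ n / (k * (d + 2)) := (Nat.one_le_div_iff hks).mpr hn2
      have h6 : n ≤ k * (d + 2) * (2 * (n / (k * (d + 2)))) :=
        h4.le.trans (Nat.mul_le_mul_left _ (by omega))
      have h7 : (n : ℝ) ≤ ((k : ℝ) * ((d + 2 : ℕ) : ℝ)) * (2 * ((n / (k * (d + 2)) : ℕ) : ℝ)) := by
        exact_mod_cast h6
      rw [div_le_iff₀ (by positivity)]
      linarith
    have h8 : c' * (n.choose (d + 2) : ℝ) ≤ ((R (d + 2) k n).card : ℝ) := by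
      refine le_trans ?_ h2
      have h9 : (n.choose (d + 2) : ℝ) ≤ (n : ℝ) ^ (d + 2) := by
        exact_mod_cast Nat.choose_le_pow n (d + 2)
      calc c' * (n.choose (d + 2) : ℝ) ≤ c' * (n : ℝ) ^ (d + 2) :=
            mul_le_mul_of_nonneg_left h9 hc0.le
        _ = ((n : ℝ) / (2 * ((k : ℝ) * ((d + 2 : ℕ) : ℝ)))) ^ (d + 2) := by
            rw [hc', ← mul_pow]
            congr 1
            ring
        _ ≤ ((n / (k * (d + 2)) : ℕ) : ℝ) ^ (d + 2) :=
            pow_le_pow_left₀ (by positivity) h3 _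
    rw [card_union_of_disjoint (disj (d + 2) k n)]
    push_cast


    have h10 : (0 : ℝ) ≤ (n.choose (d + 2) : ℝ) := Nat.cast_nonneg _
    linarith

end Pool.Agent.N38.NT.NEG
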